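import Pool.Agent.W788.NV.Stm

/-! # Project NV: basic facts of finite Markov semigroups -/

set_option autoImplicit false

namespace Pool.Agent.W436.NV

open Pool.Agent.W788.NV Finset

attribute [local instance] Matrix.linftyOpNormedRing Matrix.linftyOpNormedAlgebra

variable {S ι : Type} [Fintype S] [DecidableEq S] [Fintype ι]

theorem mulVec_gen (r : ι → ℝ) (m : ι → S → S) (F : S → ℝ) :
    (mgen r m).mulVec F = gf r m F := by
  funext x
  simp only [Matrix.mulVec, dotProduct, mgen, gf, Finset.sum_mul]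
  rw [Finset.sum_comm]
  refine Finset.sum_congr rfl fun e _ => ?_
  simp only [mul_assoc]
  rw [← Finset.mul_sum]
  congr 1
  simp [sub_mul, Finset.sum_sub_distrib]

theorem sg_zero (r : ι → ℝ) (m : ι → S → S) (F : S → ℝ) : sg r m 0 F = F := by
  unfold sg
  rw [zero_smul, NormedSpace.exp_zero, Matrix.one_mulVec]

theorem sg_add (r : ι → ℝ) (m : ι → S → S) (F : S → ℝ) (s t : ℝ) :
    sg r m (s + t) F = sg r m s (sg r m t F) := by
  unfold sg
  rw [add_smul, Matrix.exp_add_of_commute _ _ (((Commute.refl (mgen r m)).smul_left s).smul_right t),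
    Matrix.mulVec_mulVec]

/-- evaluation as a continuous linear map -/
noncomputable def ev (F : S → ℝ) (x : S) : Matrix S S ℝ →L[ℝ] ℝ :=
  LinearMap.toContinuousLinearMap
    { toFun := fun M => (M.mulVec F) x
      map_add' := fun M N => by simp [Matrix.add_mulVec]
      map_smul' := fun c M => by simp [Matrix.smul_mulVec] }

omit [DecidableEq S] in
theorem ev_apply (F : S → ℝ) (x : S) (M : Matrix S S ℝ) : ev F x M = (M.mulVec F) x := rfl

set_option backward.isDefEq.respectTransparency false in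
theorem sg_deriv (r : ι → ℝ) (m : ι → S → S) (F : S → ℝ) (x : S) (t : ℝ) :
    HasDerivAt (fun t => sg r m t F x) (sg r m t (gf r m F) x) t := by
  have h := hasDerivAt_exp_smul_const (𝕂 := ℝ) (mgen r m) t
  have h2 := (ev F x).hasFDerivAt.comp_hasDerivAt t h
  have h3 : ev F x (NormedSpace.exp (t • mgen r m) * mgen r m) = sg r m t (gf r m F) x := by
    rw [ev_apply, ← Matrix.mulVec_mulVec, mulVec_gen]; rfl
  exact h2.congr_deriv h3

theorem sg_comm (r : ι → ℝ) (m : ι → S → S) (F : S → ℝ) (t : ℝ) :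
    sg r m t (gf r m F) = gf r m (sg r m t F) := by
  rw [← mulVec_gen, ← mulVec_gen]
  unfold sg
  rw [Matrix.mulVec_mulVec, Matrix.mulVec_mulVec]
  have h : Commute (NormedSpace.exp (t • mgen r m)) (mgen r m) :=
    ((Commute.refl (mgen r m)).smul_left t).exp_left
  rw [h.eq]

theorem sg_lin {κ : Type} [Fintype κ] (r : ι → ℝ) (m : ι → S → S) (c : κ → ℝ)
    (F : κ → S → ℝ) (x : S) (t : ℝ) :
    sg r m t (fun y => ∑ k, c k * F k y) x = ∑ k, c k * sg r m t (F k) x := by
  simp only [sg, Matrix.mulVec, dotProduct, Finset.mul_sum]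
  rw [Finset.sum_comm]
  refine Finset.sum_congr rfl fun k _ => Finset.sum_congr rfl fun y _ => ?_
  ring

theorem sg_cst (r : ι → ℝ) (m : ι → S → S) (c : ℝ) (x : S) (t : ℝ) :
    sg r m t (fun _ => c) x = c := by
  have h0 : gf r m (fun _ => c) = fun _ => 0 := by
    funext y; simp [gf]
  have h1 : ∀ t, HasDerivAt (fun t => sg r m t (fun _ => c) x) 0 t := by
    intro t
    have h := sg_deriv r m (fun _ => c) x t
    rw [h0] at h
    have h2 : sg r m t (fun _ => 0) x = 0 := by
      simp [sg, Matrix.mulVec, dotProduct]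
    rwa [h2] at h
  have h2 := is_const_of_deriv_eq_zero (f := fun t => sg r m t (fun _ => c) x)
    (fun t => (h1 t).differentiableAt) (fun t => (h1 t).deriv) t 0
  rw [h2, sg_zero]

theorem pow_nonneg' (B : Matrix S S ℝ) (hB : ∀ x y, 0 ≤ B x y) (k : ℕ) :
    ∀ x y, 0 ≤ (B ^ k) x y := by
  induction k with
  | zero =>
    intro x y
    rw [pow_zero, Matrix.one_apply]
    split_ifs <;> norm_num
  | succ k ih =>
    intro x y
    rw [pow_succ, Matrix.mul_apply]
    exact Finset.sum_nonneg fun z _ => mul_nonneg (ih x z) (hB z y)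

theorem exp_nonneg' (B : Matrix S S ℝ) (hB : ∀ x y, 0 ≤ B x y) (x y : S) :
    0 ≤ (NormedSpace.exp B) x y := by
  have h1 : HasSum (fun n : ℕ => ((n.factorial : ℝ)⁻¹) • B ^ n) (NormedSpace.exp B) :=
    NormedSpace.exp_series_hasSum_exp' (𝕂 := ℝ) B
  have h2 := h1.mapL (ev (fun z => if z = y then 1 else 0) x)
  have h3 : ∀ M : Matrix S S ℝ, ev (fun z => if z = y then (1 : ℝ) else 0) x M = M x y := by
    intro M
    rw [ev_apply]
    simp [Matrix.mulVec, dotProduct]
  simp only [h3] at h2
  refine h2.nonneg fun n => ?_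
  rw [Matrix.smul_apply, smul_eq_mul]
  exact mul_nonneg (by positivity) (pow_nonneg' B hB n x y)

theorem exp_gen_nonneg (r : ι → ℝ) (m : ι → S → S) (hr : ∀ e, 0 ≤ r e) (t : ℝ) (ht : 0 ≤ t)
    (x y : S) : 0 ≤ (NormedSpace.exp (t • mgen r m)) x y := by
  obtain ⟨B, hB⟩ : ∃ B : Matrix S S ℝ, B = Matrix.of (fun x y : S =>
      t * ∑ e, r e * (if y = m e x then 1 else 0)) := ⟨_, rfl⟩
  have hBa : ∀ x y, B x y = t * ∑ e, r e * (if y = m e x then 1 else 0) := by
    intro x y; rw [hB]; rfl
  have h1 : t • mgen r m = Matrix.diagonal (fun _ : S => -(t * ∑ e, r e)) + B := by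
    ext x y
    rw [Matrix.smul_apply, Matrix.add_apply, hBa, smul_eq_mul, Matrix.diagonal_apply]
    unfold mgen
    by_cases hxy : x = y
    · subst hxy
      simp only [if_true, mul_sub, Finset.sum_sub_distrib, mul_one]
      ring
    · have : ¬ y = x := fun h => hxy h.symm
      simp only [hxy, this, if_false, sub_zero, zero_add]
  have h2 : Commute (Matrix.diagonal (fun _ : S => -(t * ∑ e, r e))) B := by
    have : Matrix.diagonal (fun _ : S => -(t * ∑ e, r e)) =
        (-(t * ∑ e, r e)) • (1 : Matrix S S ℝ) := by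
      rw [Matrix.smul_one_eq_diagonal]
    rw [this]
    exact (Commute.one_left B).smul_left _
  have hBn : ∀ x y, 0 ≤ B x y := by
    intro x y
    rw [hBa]
    refine mul_nonneg ht (Finset.sum_nonneg fun e _ => mul_nonneg (hr e) ?_)
    split_ifs <;> norm_num
  rw [h1, Matrix.exp_add_of_commute _ _ h2, Matrix.exp_diagonal, Matrix.diagonal_mul]
  refine mul_nonneg ?_ (exp_nonneg' B hBn x y)
  rw [Pi.coe_exp, ← Real.exp_eq_exp_ℝ]
  exact (Real.exp_pos _).le

theorem mk_ : MK where
  zero := fun S ι _ _ _ r m F => sg_zero r m F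
  add := fun S ι _ _ _ r m F s t => sg_add r m F s t
  deriv := fun S ι _ _ _ r m F x t => sg_deriv r m F x t
  comm := fun S ι _ _ _ r m F t => sg_comm r m F t
  lin := fun S ι κ _ _ _ _ r m c F x t => sg_lin r m c F x t
  cst := fun S ι _ _ _ r m c x t => sg_cst r m c x t
  mono := fun S ι _ _ _ r m F H x t hr ht h => by
    simp only [sg, Matrix.mulVec, dotProduct]
    exact Finset.sum_le_sum fun y _ =>
      mul_le_mul_of_nonneg_left (h y) (exp_gen_nonneg r m hr t ht x y)
  cs := fun S ι _ _ _ r m F H x t hr ht => by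
    simp only [sg, Matrix.mulVec, dotProduct]
    refine Finset.sum_sq_le_sum_mul_sum_of_sq_le_mul _ (fun y _ => ?_) (fun y _ => ?_)
      (fun y _ => le_of_eq ?_)
    · exact mul_nonneg (exp_gen_nonneg r m hr t ht x y) (sq_nonneg _)
    · exact mul_nonneg (exp_gen_nonneg r m hr t ht x y) (sq_nonneg _)
    · ring

end Pool.Agent.W436.NV
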